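import Pool.Agent.H586.AF.C

set_option autoImplicit false
set_option linter.unusedVariables false

open MeasureTheory Matrix Finset Filter Topology
open scoped Quaternion

namespace Pool.Agent.H640.AF

open Pool.Agent.H586.AF

noncomputable section

namespace Q12x

/-- the sum over the plaquettes of the plane 12 as a sum over finite types -/
lemma s12_fin (L : ℕ) (G : ℕ → ℕ → ℕ → ℕ → ℝ) :
    s12 L G = ∑ x : Fin L, ∑ y : Fin L, ∑ z : Fin (L - 1), ∑ h : Fin L,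
      G x y ((z : ℕ) + 1) ((h : ℕ) + 1) := by
  unfold s12
  rw [Finset.sum_range]
  refine Finset.sum_congr rfl fun x _ => ?_
  rw [Finset.sum_range]
  refine Finset.sum_congr rfl fun y _ => ?_
  rw [Finset.sum_Ico_eq_sum_range, Finset.sum_range]
  refine Finset.sum_congr rfl fun z _ => ?_
  have e : Finset.Icc 1 L = Finset.Ico 1 (L + 1) := by
    ext t
    simp only [Finset.mem_Icc, Finset.mem_Ico]
    omega
  rw [e, Finset.sum_Ico_eq_sum_range, Nat.add_sub_cancel, Finset.sum_range]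
  refine Finset.sum_congr rfl fun h _ => ?_
  rw [Nat.add_comm 1 (z : ℕ), Nat.add_comm 1 (h : ℕ)]

lemma ex1_eq (L : ℕ) (a : I1 L → ℂ) (x : Fin L) (y : ℕ) (z : Fin (L - 1)) (h : Fin L) :
    ex1 L a 0 x y ((z : ℕ) + 1) ((h : ℕ) + 1) =
      ∑ k : Fin (L - 1), if (k : ℕ) + 1 = y then a (x, k, z, h) else 0 := by
  unfold ex1
  by_cases c : 1 ≤ y ∧ y - 1 < L - 1
  · have c' : ((x : ℕ) < L ∧ y - 1 < L - 1 ∧ (z : ℕ) + 1 - 1 < L - 1 ∧ (h : ℕ) + 1 - 1 < L) ∧
        1 ≤ y ∧ 1 ≤ (z : ℕ) + 1 ∧ 1 ≤ (h : ℕ) + 1 := by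
      have := x.2
      have := z.2
      have := h.2
      refine ⟨⟨?_, ?_, ?_, ?_⟩, ?_, ?_, ?_⟩ <;> omega
    rw [dif_pos c', Finset.sum_eq_single (⟨y - 1, c.2⟩ : Fin (L - 1))]
    · rw [if_pos (by show y - 1 + 1 = y; omega)]
      rfl
    · intro k _ hk
      rw [if_neg]
      intro hky
      exact hk (Fin.ext (by show (k : ℕ) = y - 1; omega))
    · intro hh
      exact absurd (Finset.mem_univ _) hh
  · rw [dif_neg (fun c' => c ⟨c'.2.1, c'.1.2.1⟩)]
    symm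
    apply Finset.sum_eq_zero
    intro k _
    rw [if_neg]
    intro hky
    have := k.2
    exact c ⟨by omega, by omega⟩

lemma ex2_eq (L : ℕ) (b : I2 L → ℂ) (x : ℕ) (y : Fin L) (z : Fin (L - 1)) (h : Fin L) :
    ex2 L b 0 x y ((z : ℕ) + 1) ((h : ℕ) + 1) =
      ∑ i : Fin (L - 1), if (i : ℕ) + 1 = x then b (i, y, z, h) else 0 := by
  unfold ex2
  by_cases c : 1 ≤ x ∧ x - 1 < L - 1
  · have c' : (x - 1 < L - 1 ∧ (y : ℕ) < L ∧ (z : ℕ) + 1 - 1 < L - 1 ∧ (h : ℕ) + 1 - 1 < L) ∧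
        1 ≤ x ∧ 1 ≤ (z : ℕ) + 1 ∧ 1 ≤ (h : ℕ) + 1 := by
      have := y.2
      have := z.2
      have := h.2
      refine ⟨⟨?_, ?_, ?_, ?_⟩, ?_, ?_, ?_⟩ <;> omega
    rw [dif_pos c', Finset.sum_eq_single (⟨x - 1, c.2⟩ : Fin (L - 1))]
    · rw [if_pos (by show x - 1 + 1 = x; omega)]
      rfl
    · intro k _ hk
      rw [if_neg]
      intro hky
      exact hk (Fin.ext (by show (k : ℕ) = x - 1; omega))
    · intro hh
      exact absurd (Finset.mem_univ _) hh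
  · rw [dif_neg (fun c' => c ⟨c'.2.1, c'.1.1⟩)]
    symm
    apply Finset.sum_eq_zero
    intro k _
    rw [if_neg]
    intro hky
    have := k.2
    exact c ⟨by omega, by omega⟩

/-- the entries of the block -/
def NN (L : ℕ) (θ : ℝ) (x : Fin L) (k i : Fin (L - 1)) (y : Fin L) : ℂ :=
  (if (k : ℕ) = y then 1 else 0) * (if (i : ℕ) + 1 = x then 1 else 0) * ee θ (-(((x : ℕ) + 1) / 2)) +
  (if (k : ℕ) + 1 = y then 1 else 0) * (if (i : ℕ) = x then 1 else 0) * ee θ ((x : ℕ) / 2) -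
  (if (k : ℕ) = y then 1 else 0) * (if (i : ℕ) = x then 1 else 0) * ee θ (-((x : ℕ) / 2)) -
  (if (k : ℕ) + 1 = y then 1 else 0) * (if (i : ℕ) + 1 = x then 1 else 0) * ee θ (((x : ℕ) + 1) / 2)

lemma cc_eq (θ : ℝ) : (-(2 * Complex.I * (Real.sin (θ / 4) : ℝ)) : ℂ) =
    ee θ (-(1 / 4)) - ee θ (1 / 4) := by
  unfold ee
  have h1 : Complex.I * ((θ * (-(1 / 4)) : ℝ) : ℂ) = ((-(θ / 4) : ℝ) : ℂ) * Complex.I := by
    push_cast
    ring
  have h2 : Complex.I * ((θ * (1 / 4) : ℝ) : ℂ) = (((θ / 4) : ℝ) : ℂ) * Complex.I := by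
    push_cast
    ring
  rw [h1, h2, Complex.exp_mul_I, Complex.exp_mul_I]
  rw [← Complex.ofReal_cos, ← Complex.ofReal_sin, ← Complex.ofReal_cos, ← Complex.ofReal_sin,
    Real.cos_neg, Real.sin_neg]
  push_cast
  ring

lemma ee_add (θ s t : ℝ) : ee θ s * ee θ t = ee θ (s + t) := by
  unfold ee
  rw [← Complex.exp_add]
  apply congrArg
  push_cast
  ring

lemma ee_star (θ s : ℝ) : star (ee θ s) = ee θ (-s) := by
  unfold ee
  rw [Complex.star_def, ← Complex.exp_conj]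
  apply congrArg
  simp

lemma phs_eq {n : ℕ} (θ s x0 : ℝ) (i j : Fin n) :
    (phs θ s x0 : Matrix (Fin n) (Fin n) ℂ) i j =
      if i = j then ee θ (s * (((i : ℕ) : ℝ) + x0)) else 0 := by
  unfold phs ee
  rw [Matrix.diagonal_apply]
  by_cases h : i = j
  · rw [if_pos h, if_pos h, mul_assoc]
  · rw [if_neg h, if_neg h]

lemma m12_entry (L : ℕ) (θ : ℝ) (x : Fin L) (k z : Fin (L - 1)) (h : Fin L) (i : Fin (L - 1))
    (y : Fin L) (z' : Fin (L - 1)) (h' : Fin L) :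
    m12 L θ (x, k, z, h) (i, y, z', h') =
      (ee θ (-(1 / 4)) - ee θ (1 / 4)) *
        (ee θ ((1 / 2) * (((x : ℕ) : ℝ) + 1 / 2)) * (if (k : ℕ) + 1 = y then 1 else 0) +
         ee θ (-(1 / 2) * (((x : ℕ) : ℝ) + 1 / 2)) * (if (k : ℕ) = y then 1 else 0)) *
        ((if (i : ℕ) = x then 1 else 0) + (if (i : ℕ) + 1 = x then 1 else 0)) *
        (if z = z' then 1 else 0) * (if h = h' then 1 else 0) := by
  unfold m12
  rw [Matrix.smul_apply, Matrix.add_apply, cc_eq, smul_eq_mul]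
  have hp : ∀ s : ℝ, (phs θ s (1 / 2) * cx (nm L (L - 1)) : Matrix (Fin L) (Fin (L - 1)) ℂ) x i =
      ee θ (s * (((x : ℕ) : ℝ) + 1 / 2)) *
        ((if (i : ℕ) = x then 1 else 0) + (if (i : ℕ) + 1 = x then 1 else 0)) := by
    intro s
    refine Eq.trans (Matrix.mul_apply (M := (phs θ s (1 / 2) : Matrix (Fin L) (Fin L) ℂ))
      (N := cx (nm L (L - 1)))) ?_
    rw [Finset.sum_eq_single x]
    · rw [phs_eq, if_pos rfl]
      apply congrArg
      show (((nm L (L - 1)) x i : ℝ) : ℂ) = _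
      unfold nm
      split_ifs <;> norm_num
    · intro j _ hj
      rw [phs_eq, if_neg (Ne.symm hj), zero_mul]
    · intro hh
      exact absurd (Finset.mem_univ _) hh
  unfold k4
  simp only [hp, Matrix.transpose_apply, Matrix.one_apply, e0, e1]
  ring

lemma gg_entry (L : ℕ) (θ : ℝ) (x : Fin L) (k z : Fin (L - 1)) (h : Fin L) (i : Fin (L - 1))
    (y : Fin L) (z' : Fin (L - 1)) (h' : Fin L) :
    (g1 L * (g2 L θ)ᴴ) (x, k, z, h) (i, y, z', h') =
      ((if (i : ℕ) = x then 1 else 0) - (if (i : ℕ) + 1 = x then 1 else 0)) *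
        (ee θ (-(1 / 2 * (((i : ℕ) : ℝ) + 1))) * (if (k : ℕ) = y then 1 else 0) -
         ee θ (1 / 2 * (((i : ℕ) : ℝ) + 1)) * (if (k : ℕ) + 1 = y then 1 else 0)) *
        (if z = z' then 1 else 0) * (if h = h' then 1 else 0) := by
  rw [Matrix.mul_apply, Finset.sum_eq_single ((i, k, z, h) : I0 L)]
  · rw [Matrix.conjTranspose_apply]
    have h1 : g1 L (x, k, z, h) (i, k, z, h) =
        (if (i : ℕ) = x then 1 else 0) - (if (i : ℕ) + 1 = x then 1 else 0) := by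
      unfold g1 k4
      simp only [Matrix.one_apply_eq, mul_one]
      show (((dm L (L - 1)) x i : ℝ) : ℂ) = _
      unfold dm
      split_ifs <;> norm_num
    have h2 : g2 L θ (i, y, z', h') (i, k, z, h) =
        (ee θ (1 / 2 * (((i : ℕ) : ℝ) + 1)) * (if (k : ℕ) = y then 1 else 0) -
         ee θ (-(1 / 2) * (((i : ℕ) : ℝ) + 1)) * (if (k : ℕ) + 1 = y then 1 else 0)) *
        (if z' = z then 1 else 0) * (if h' = h then 1 else 0) := by
      unfold g2
      rw [Matrix.sub_apply]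
      unfold k4
      simp only [phs_eq, Matrix.one_apply, e0, e1, if_true]
      ring
    rw [h1, h2]
    simp only [star_mul', star_sub, ee_star]
    have s0 : ∀ (P : Prop) [Decidable P], star (if P then (1 : ℂ) else 0) = if P then 1 else 0 := by
      intro P _
      split_ifs <;> simp
    have e1 : -(-(1 / 2) * (((i : ℕ) : ℝ) + 1)) = 1 / 2 * (((i : ℕ) : ℝ) + 1) := by ring
    rw [s0, s0, s0, s0, e1]
    have ez : (if z' = z then (1 : ℂ) else 0) = if z = z' then 1 else 0 := by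
      by_cases c : z = z'
      · rw [if_pos c, if_pos c.symm]
      · rw [if_neg c, if_neg (Ne.symm c)]
    have eh : (if h' = h then (1 : ℂ) else 0) = if h = h' then 1 else 0 := by
      by_cases c : h = h'
      · rw [if_pos c, if_pos c.symm]
      · rw [if_neg c, if_neg (Ne.symm c)]
    rw [ez, eh]
    ring
  · rintro ⟨p1, p2, p3, p4⟩ _ hp
    by_cases c1 : i = p1
    · have hg : g1 L (x, k, z, h) (p1, p2, p3, p4) = 0 := by
        unfold g1 k4
        simp only [Matrix.one_apply]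
        by_cases c2 : k = p2
        · by_cases c3 : z = p3
          · by_cases c4 : h = p4
            · exact absurd (by rw [c1, c2, c3, c4]) hp
            · rw [if_neg c4, mul_zero]
          · rw [if_neg c3, mul_zero, zero_mul]
        · rw [if_neg c2, mul_zero, zero_mul, zero_mul]
      rw [hg, zero_mul]
    · have hg : g2 L θ (i, y, z', h') (p1, p2, p3, p4) = 0 := by
        unfold g2
        rw [Matrix.sub_apply]
        unfold k4
        simp only [phs_eq, if_neg c1, zero_mul, sub_zero]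
      rw [Matrix.conjTranspose_apply, hg, star_zero, mul_zero]
  · intro hh
    exact absurd (Finset.mem_univ _) hh

lemma entry (L : ℕ) (θ : ℝ) (x : Fin L) (k z : Fin (L - 1)) (h : Fin L) (i : Fin (L - 1))
    (y : Fin L) (z' : Fin (L - 1)) (h' : Fin L) :
    (m12 L θ - g1 L * (g2 L θ)ᴴ) (x, k, z, h) (i, y, z', h') =
      NN L θ x k i y * (if z = z' then 1 else 0) * (if h = h' then 1 else 0) := by
  rw [Matrix.sub_apply, m12_entry, gg_entry]
  unfold NN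
  have hq : ∀ s t : ℝ, ee θ s * ee θ t = ee θ (s + t) := ee_add θ
  by_cases c1 : (i : ℕ) = x
  · have c2 : ¬ ((i : ℕ) + 1 = x) := by omega
    have a1 : -(1 / 4) + 1 / 2 * (((x : ℕ) : ℝ) + 1 / 2) = (x : ℕ) / 2 := by ring
    have a2 : 1 / 4 + 1 / 2 * (((x : ℕ) : ℝ) + 1 / 2) = 1 / 2 * (((i : ℕ) : ℝ) + 1) := by
      rw [c1]
      ring
    have a3 : -(1 / 4) + -(1 / 2) * (((x : ℕ) : ℝ) + 1 / 2) = -(1 / 2 * (((i : ℕ) : ℝ) + 1)) := by
      rw [c1]
      ring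
    have a4 : 1 / 4 + -(1 / 2) * (((x : ℕ) : ℝ) + 1 / 2) = -((x : ℕ) / 2) := by ring
    have b1 := hq (-(1 / 4)) (1 / 2 * (((x : ℕ) : ℝ) + 1 / 2))
    have b2 := hq (1 / 4) (1 / 2 * (((x : ℕ) : ℝ) + 1 / 2))
    have b3 := hq (-(1 / 4)) (-(1 / 2) * (((x : ℕ) : ℝ) + 1 / 2))
    have b4 := hq (1 / 4) (-(1 / 2) * (((x : ℕ) : ℝ) + 1 / 2))
    rw [a1] at b1
    rw [a2] at b2
    rw [a3] at b3
    rw [a4] at b4
    simp only [if_pos c1, if_neg c2]
    linear_combination ((if (k : ℕ) + 1 = y then 1 else 0) * (b1 - b2) +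
      (if (k : ℕ) = y then 1 else 0) * (b3 - b4)) *
      (if z = z' then 1 else 0) * (if h = h' then 1 else 0)
  · by_cases c2 : (i : ℕ) + 1 = x
    · have c3 : ((x : ℕ) : ℝ) = ((i : ℕ) : ℝ) + 1 := by
        rw [← c2]
        push_cast
        ring
      have a1 : -(1 / 4) + 1 / 2 * (((x : ℕ) : ℝ) + 1 / 2) = 1 / 2 * (((i : ℕ) : ℝ) + 1) := by
        rw [c3]
        ring
      have a2 : 1 / 4 + 1 / 2 * (((x : ℕ) : ℝ) + 1 / 2) = (((x : ℕ) : ℝ) + 1) / 2 := by ring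
      have a3 : -(1 / 4) + -(1 / 2) * (((x : ℕ) : ℝ) + 1 / 2) = -((((x : ℕ) : ℝ) + 1) / 2) := by ring
      have a4 : 1 / 4 + -(1 / 2) * (((x : ℕ) : ℝ) + 1 / 2) = -(1 / 2 * (((i : ℕ) : ℝ) + 1)) := by
        rw [c3]
        ring
      have b1 := hq (-(1 / 4)) (1 / 2 * (((x : ℕ) : ℝ) + 1 / 2))
      have b2 := hq (1 / 4) (1 / 2 * (((x : ℕ) : ℝ) + 1 / 2))
      have b3 := hq (-(1 / 4)) (-(1 / 2) * (((x : ℕ) : ℝ) + 1 / 2))
      have b4 := hq (1 / 4) (-(1 / 2) * (((x : ℕ) : ℝ) + 1 / 2))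
      rw [a1] at b1
      rw [a2] at b2
      rw [a3] at b3
      rw [a4] at b4
      simp only [if_neg c1, if_pos c2]
      linear_combination ((if (k : ℕ) + 1 = y then 1 else 0) * (b1 - b2) +
        (if (k : ℕ) = y then 1 else 0) * (b3 - b4)) *
        (if z = z' then 1 else 0) * (if h = h' then 1 else 0)
    · simp only [if_neg c1, if_neg c2]
      ring

/-- reordering of sums -/
lemma reorder {A B C D E : Type} [Fintype A] [Fintype B] [Fintype C] [Fintype D] [Fintype E]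
    (T : A → B → C → D → E → ℂ) :
    ∑ y, ∑ z, ∑ h, ∑ k, ∑ i, T y z h k i = ∑ k, ∑ z, ∑ h, ∑ i, ∑ y, T y z h k i := by
  have h1 : ∑ y, ∑ z, ∑ h, ∑ k, ∑ i, T y z h k i =
      ∑ p : A × B × C × D × E, T p.1 p.2.1 p.2.2.1 p.2.2.2.1 p.2.2.2.2 := by
    simp only [Fintype.sum_prod_type]
  have h2 : ∑ k, ∑ z, ∑ h, ∑ i, ∑ y, T y z h k i =
      ∑ q : D × B × C × E × A, T q.2.2.2.2 q.2.1 q.2.2.1 q.1 q.2.2.2.1 := by
    simp only [Fintype.sum_prod_type]
  rw [h1, h2]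
  exact Fintype.sum_equiv
    (⟨fun p => (p.2.2.2.1, p.2.1, p.2.2.1, p.2.2.2.2, p.1),
      fun q => (q.2.2.2.2, q.2.1, q.2.2.1, q.1, q.2.2.2.1), fun _ => rfl, fun _ => rfl⟩ :
      A × B × C × D × E ≃ D × B × C × E × A) _ _ (fun _ => rfl)

/-- one plaquette -/
lemma plaq (L : ℕ) (θ : ℝ) (a : I1 L → ℂ) (b : I2 L → ℂ) (x y : Fin L) (z : Fin (L - 1))
    (h : Fin L) :
    -(-(ee θ ((((x : ℕ) : ℝ) + 1) / 2) * ex1 L a 0 x ((y : ℕ) + 1) ((z : ℕ) + 1) ((h : ℕ) + 1) *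
        star (ex2 L b 0 x y ((z : ℕ) + 1) ((h : ℕ) + 1))) -
      ee θ (-(((x : ℕ) : ℝ) / 2)) * ex1 L a 0 x y ((z : ℕ) + 1) ((h : ℕ) + 1) *
        star (ex2 L b 0 ((x : ℕ) + 1) y ((z : ℕ) + 1) ((h : ℕ) + 1)) +
      ee θ (-(((x : ℕ) : ℝ) / 2)) * ex2 L b 0 ((x : ℕ) + 1) y ((z : ℕ) + 1) ((h : ℕ) + 1) *
        star (ex1 L a 0 x ((y : ℕ) + 1) ((z : ℕ) + 1) ((h : ℕ) + 1)) +
      ee θ (-((((x : ℕ) : ℝ) + 1) / 2)) * ex1 L a 0 x y ((z : ℕ) + 1) ((h : ℕ) + 1) *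
        star (ex2 L b 0 x y ((z : ℕ) + 1) ((h : ℕ) + 1))).re =
    (∑ k, ∑ i, star (a (x, k, z, h)) * NN L θ x k i y * b (i, y, z, h)).re := by
  have hA : ∀ t : ℕ, star (ex1 L a 0 x t ((z : ℕ) + 1) ((h : ℕ) + 1)) =
      ∑ k : Fin (L - 1), (if (k : ℕ) + 1 = t then 1 else 0) * star (a (x, k, z, h)) := by
    intro t
    rw [ex1_eq, star_sum]
    refine Finset.sum_congr rfl fun k _ => ?_
    split_ifs <;> simp
  have hB : ∀ t : ℕ, ex2 L b 0 t y ((z : ℕ) + 1) ((h : ℕ) + 1) =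
      ∑ i : Fin (L - 1), (if (i : ℕ) + 1 = t then 1 else 0) * b (i, y, z, h) := by
    intro t
    rw [ex2_eq]
    refine Finset.sum_congr rfl fun k _ => ?_
    split_ifs <;> simp
  set A1 := ex1 L a 0 x ((y : ℕ) + 1) ((z : ℕ) + 1) ((h : ℕ) + 1) with hA1
  set A0 := ex1 L a 0 x y ((z : ℕ) + 1) ((h : ℕ) + 1) with hA0
  set B0 := ex2 L b 0 x y ((z : ℕ) + 1) ((h : ℕ) + 1) with hB0
  set B1 := ex2 L b 0 ((x : ℕ) + 1) y ((z : ℕ) + 1) ((h : ℕ) + 1) with hB1
  have hr : ∀ w : ℂ, w.re = (star w).re := fun w => by simp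
  have key : -(-(ee θ ((((x : ℕ) : ℝ) + 1) / 2) * A1 * star B0) -
      ee θ (-(((x : ℕ) : ℝ) / 2)) * A0 * star B1 +
      ee θ (-(((x : ℕ) : ℝ) / 2)) * B1 * star A1 +
      ee θ (-((((x : ℕ) : ℝ) + 1) / 2)) * A0 * star B0).re =
      (star A1 * ee θ (-((((x : ℕ) : ℝ) + 1) / 2)) * B0 + star A0 * ee θ (((x : ℕ) : ℝ) / 2) * B1 -
        star A1 * ee θ (-(((x : ℕ) : ℝ) / 2)) * B1 - star A0 * ee θ ((((x : ℕ) : ℝ) + 1) / 2) * B0).re := by
    have r1 := hr (ee θ ((((x : ℕ) : ℝ) + 1) / 2) * A1 * star B0)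
    have r2 := hr (ee θ (-(((x : ℕ) : ℝ) / 2)) * A0 * star B1)
    have r4 := hr (ee θ (-((((x : ℕ) : ℝ) + 1) / 2)) * A0 * star B0)
    rw [star_mul', star_mul', star_star, ee_star] at r1 r2 r4
    rw [neg_neg] at r2 r4
    have c1 : ee θ (-((((x : ℕ) : ℝ) + 1) / 2)) * star A1 * B0 =
        star A1 * ee θ (-((((x : ℕ) : ℝ) + 1) / 2)) * B0 := by ring
    have c2 : ee θ (((x : ℕ) : ℝ) / 2) * star A0 * B1 = star A0 * ee θ (((x : ℕ) : ℝ) / 2) * B1 := by ring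
    have c3 : ee θ (-(((x : ℕ) : ℝ) / 2)) * B1 * star A1 =
        star A1 * ee θ (-(((x : ℕ) : ℝ) / 2)) * B1 := by ring
    have c4 : ee θ ((((x : ℕ) : ℝ) + 1) / 2) * star A0 * B0 =
        star A0 * ee θ ((((x : ℕ) : ℝ) + 1) / 2) * B0 := by ring
    rw [c1] at r1
    rw [c2] at r2
    rw [c4] at r4
    simp only [Complex.add_re, Complex.sub_re, Complex.neg_re, r1, r2, r4, c3]
    ring
  rw [key, hA1, hA0, hB0, hB1, hA, hA, hB, hB]
  apply congrArg
  have pr : ∀ (u v : Fin (L - 1) → ℂ) (w : ℂ),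
      (∑ k, u k) * w * ∑ i, v i = ∑ k, ∑ i, u k * w * v i := by
    intro u v w
    rw [Finset.sum_mul, Finset.sum_mul]
    refine Finset.sum_congr rfl fun k _ => ?_
    rw [Finset.mul_sum]
  rw [pr, pr, pr, pr, ← Finset.sum_add_distrib, ← Finset.sum_sub_distrib, ← Finset.sum_sub_distrib]
  refine Finset.sum_congr rfl fun k _ => ?_
  rw [← Finset.sum_add_distrib, ← Finset.sum_sub_distrib, ← Finset.sum_sub_distrib]
  refine Finset.sum_congr rfl fun i _ => ?_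
  have s1 : ((k : ℕ) + 1 = (y : ℕ) + 1) = ((k : ℕ) = y) := by
    apply propext
    omega
  have s2 : ((i : ℕ) + 1 = (x : ℕ) + 1) = ((i : ℕ) = x) := by
    apply propext
    omega
  unfold NN
  simp only [s1, s2]
  ring

end Q12x

open Q12x in
theorem tq12 : S_Q12 := by
  intro L hL θ a b
  rw [s12_fin]
  unfold hf
  have hR : (∑ i, ∑ j, star (a i) * (m12 L θ - g1 L * (g2 L θ)ᴴ) i j * b j) =
      ∑ x : Fin L, ∑ k : Fin (L - 1), ∑ z : Fin (L - 1), ∑ h : Fin L, ∑ i : Fin (L - 1), ∑ y : Fin L,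
        star (a (x, k, z, h)) * NN L θ x k i y * b (i, y, z, h) := by
    simp only [Fintype.sum_prod_type]
    refine Finset.sum_congr rfl fun x _ => ?_
    refine Finset.sum_congr rfl fun k _ => ?_
    refine Finset.sum_congr rfl fun z _ => ?_
    refine Finset.sum_congr rfl fun h _ => ?_
    refine Finset.sum_congr rfl fun i _ => ?_
    refine Finset.sum_congr rfl fun y _ => ?_
    rw [Finset.sum_eq_single z]
    · rw [Finset.sum_eq_single h]
      · rw [entry, if_pos rfl, if_pos rfl, mul_one, mul_one]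
      · intro h' _ hh
        rw [entry, if_neg (Ne.symm hh), mul_zero, mul_zero, zero_mul]
      · intro hh
        exact absurd (Finset.mem_univ _) hh
    · intro z' _ hz
      apply Finset.sum_eq_zero
      intro h' _
      rw [entry, if_neg (Ne.symm hz), mul_zero, zero_mul, mul_zero, zero_mul]
    · intro hh
      exact absurd (Finset.mem_univ _) hh
  rw [hR]
  have hR2 : (∑ x : Fin L, ∑ k : Fin (L - 1), ∑ z : Fin (L - 1), ∑ h : Fin L, ∑ i : Fin (L - 1),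
      ∑ y : Fin L, star (a (x, k, z, h)) * NN L θ x k i y * b (i, y, z, h)) =
      ∑ x : Fin L, ∑ y : Fin L, ∑ z : Fin (L - 1), ∑ h : Fin L, ∑ k : Fin (L - 1), ∑ i : Fin (L - 1),
        star (a (x, k, z, h)) * NN L θ x k i y * b (i, y, z, h) := by
    refine Finset.sum_congr rfl fun x _ => ?_
    exact (reorder (fun (y : Fin L) (z : Fin (L - 1)) (h : Fin L) (k i : Fin (L - 1)) =>
      star (a (x, k, z, h)) * NN L θ x k i y * b (i, y, z, h))).symm
  rw [hR2]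
  simp only [Complex.re_sum]
  refine Finset.sum_congr rfl fun x _ => ?_
  refine Finset.sum_congr rfl fun y _ => ?_
  refine Finset.sum_congr rfl fun z _ => ?_
  refine Finset.sum_congr rfl fun h _ => ?_
  have := plaq L θ a b x y z h
  simp only [Complex.re_sum] at this
  exact this

end

end Pool.Agent.H640.AF
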